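import Pool.Agent.P.MP_9167e9_an.StG

/-! Module HT: balls in free groups and the metric and heights of the parity double cover. -/

noncomputable section
open scoped Classical
open FreeGroup

namespace Pool.Agent.P.MP_9167e9_an

namespace Ht

theorem geom_le (x n : ℕ) : ∑ m : Fin (n + 1), x ^ (m : ℕ) ≤ (x + 1) ^ n := by
  induction n with
  | zero => simp
  | succ n ih =>
    rw [Fin.sum_univ_succ]
    simp only [Fin.val_zero, pow_zero, Fin.val_succ, pow_succ]
    rw [← Finset.sum_mul]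
    have h1 : 1 ≤ (x + 1) ^ n := Nat.one_le_pow _ _ (Nat.succ_pos x)
    have h2 := Nat.mul_le_mul_right x ih
    rw [Nat.mul_add, Nat.mul_one]
    omega

/-- The reduced word of an element. -/
def wd {A : Type} (f : FreeGroup A) : List (A × Bool) := @toWord A (Classical.decEq A) f

theorem mk_wd {A : Type} (f : FreeGroup A) : mk (wd f) = f := @mk_toWord A (Classical.decEq A) f

theorem red_wd {A : Type} (f : FreeGroup A) : IsReduced (wd f) :=
  @isReduced_toWord A (Classical.decEq A) f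

theorem wd_mk {A : Type} {u : List (A × Bool)} (h : IsReduced u) : wd (mk u) = u :=
  @IsReduced.reduce_eq A u (Classical.decEq A) h

theorem len_wd {A : Type} (u : List (A × Bool)) : (wd (mk u)).length ≤ u.length :=
  @norm_mk_le A u (Classical.decEq A)

theorem mem_ball (A : Type) [Fintype A] (n : ℕ) (f : FreeGroup A) : f ∈ ballF A n ↔ nr f ≤ n := by
  simp only [ballF, Finset.mem_image, Finset.mem_univ, true_and]
  constructor
  · rintro ⟨⟨m, x⟩, rfl⟩
    refine (len_wd _).trans ?_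
    have := m.2
    simp only [List.length_ofFn]
    omega
  · intro h
    exact ⟨⟨⟨(wd f).length, Nat.lt_succ_of_le h⟩, (wd f).get⟩, by
      simp only [List.ofFn_get]; exact mk_wd f⟩

theorem card_ball (A : Type) [Fintype A] (n : ℕ) :
    (ballF A n).card ≤ (2 * Fintype.card A + 1) ^ n := by
  refine Finset.card_image_le.trans ?_
  refine le_trans (le_of_eq ?_) (geom_le (2 * Fintype.card A) n)
  simp [mul_comm]

variable {j : ℕ} {V C : Type}

theorem go_cons (τ : Fin j → Equiv.Perm C) (l : Lt j) (u : List (Lt j)) (x : C) :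
    go τ (l :: u) x = if l.2 then τ l.1 (go τ u x) else (τ l.1)⁻¹ (go τ u x) := rfl

theorem go_lift (τ : Fin j → Equiv.Perm C) (u : List (Lt j)) (x : C) :
    go τ u x = FreeGroup.lift τ (mk u) x := by
  induction u with
  | nil => rw [← one_eq_mk, _root_.map_one]; rfl
  | cons l u ih =>
    rw [go_cons, ih, show mk (l :: u) = mk [l] * mk u from rfl, _root_.map_mul,
      Equiv.Perm.mul_apply]
    obtain ⟨i, b⟩ := l
    cases b
    · rw [show mk [(i, false)] = (of i)⁻¹ from rfl, _root_.map_inv, lift_apply_of]; rfl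
    · rw [show mk [(i, true)] = of i from rfl, lift_apply_of]; rfl

theorem go_congr (τ : Fin j → Equiv.Perm C) {u u' : List (Lt j)} (h : mk u = mk u') (x : C) :
    go τ u x = go τ u' x := by rw [go_lift, go_lift, h]

theorem go_append (τ : Fin j → Equiv.Perm C) (u v : List (Lt j)) (x : C) :
    go τ (u ++ v) x = go τ u (go τ v x) := by
  simp [go, List.foldr_append]

theorem go_inv (τ : Fin j → Equiv.Perm C) (u : List (Lt j)) (x : C) :
    go τ (invRev u) (go τ u x) = x := by
  rw [go_lift, go_lift, ← inv_mk, _root_.map_inv]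
  simp

theorem hts_cons (l : Lt j) (u : List (Lt j)) :
    hts (l :: u) = (if l.2 then 1 else -1) + hts u := by simp [hts]

theorem hts_lift (u : List (Lt j)) : hts u = Multiplicative.toAdd
    (FreeGroup.lift (fun _ : Fin j => (Multiplicative.ofAdd 1 : Multiplicative ℤ)) (mk u)) := by
  induction u with
  | nil => rw [← one_eq_mk, _root_.map_one]; rfl
  | cons l u ih =>
    rw [hts_cons, ih, show mk (l :: u) = mk [l] * mk u from rfl, _root_.map_mul, toAdd_mul]
    obtain ⟨i, b⟩ := l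
    cases b
    · rw [show mk [(i, false)] = (of i)⁻¹ from rfl, _root_.map_inv, lift_apply_of]; rfl
    · rw [show mk [(i, true)] = of i from rfl, lift_apply_of]; rfl

theorem hts_congr {u u' : List (Lt j)} (h : mk u = mk u') : hts u = hts u' := by
  rw [hts_lift, hts_lift, h]

theorem hts_append (u v : List (Lt j)) : hts (u ++ v) = hts u + hts v := by simp [hts]

theorem hts_par (u : List (Lt j)) : ((hts u : ℤ) : ZMod 2) = (u.length : ZMod 2) := by
  induction u with
  | nil => simp [hts]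
  | cons l u ih =>
    rw [hts_cons, List.length_cons]
    push_cast
    rw [ih, add_comm]
    congr 1
    split_ifs
    · rfl
    · decide

theorem dbl_apply (τ : Fin j → Equiv.Perm V) (i : Fin j) (x : V) (e : ZMod 2) :
    dbl τ i (x, e) = (τ i x, e + 1) := rfl

theorem z2 (e : ZMod 2) : e + 1 + 1 = e := by revert e; decide

theorem dbl_inv (τ : Fin j → Equiv.Perm V) (i : Fin j) (x : V) (e : ZMod 2) :
    (dbl τ i)⁻¹ (x, e) = ((τ i)⁻¹ x, e + 1) := by
  rw [Equiv.Perm.inv_eq_iff_eq, dbl_apply, z2]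
  simp

theorem go_dbl (τ : Fin j → Equiv.Perm V) (u : List (Lt j)) (x : V) (e : ZMod 2) :
    go (dbl τ) u (x, e) = (go τ u x, e + u.length) := by
  induction u with
  | nil => simp [go]
  | cons l u ih =>
    rw [go_cons, go_cons, ih, List.length_cons]
    push_cast
    split_ifs
    · rw [dbl_apply, add_assoc]
    · rw [dbl_inv, add_assoc]

theorem go_shift (τ : Fin j → Equiv.Perm V) (u : List (Lt j)) (a b : V × ZMod 2) (e : ZMod 2) :
    go (dbl τ) u (a.1, a.2 + e) = (b.1, b.2 + e) ↔ go (dbl τ) u a = b := by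
  obtain ⟨x, s⟩ := a
  obtain ⟨y, t⟩ := b
  rw [go_dbl, go_dbl, Prod.mk.injEq, Prod.mk.injEq, add_right_comm, add_left_inj]

theorem dC_shift (τ : Fin j → Equiv.Perm V) (a b : V × ZMod 2) (e : ZMod 2) :
    dC τ (a.1, a.2 + e) (b.1, b.2 + e) = dC τ a b := by
  simp only [dC, go_shift]

/-- A spectral gap makes the double cover connected. -/
theorem reach [Fintype V] {τ : Fin j → Equiv.Perm V} {c : ℝ} (hj : 1 ≤ j) (h0 : 0 < c)
    (h1 : c ≤ 1) (hgap : Gap τ c) (a b : V × ZMod 2) : ∃ u, go (dbl τ) u a = b := by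
  set Rc : V × ZMod 2 → Prop := fun b => ∃ u, go (dbl τ) u a = b with hRc
  have hstep : ∀ i v e, Rc ((τ i)⁻¹ v, e) ↔ Rc (v, e + 1) := by
    intro i v e
    constructor
    · rintro ⟨u, hu⟩
      exact ⟨(i, true) :: u, by rw [go_cons, hu]; simp [dbl_apply]⟩
    · rintro ⟨u, hu⟩
      exact ⟨(i, false) :: u, by rw [go_cons, hu]; simp [dbl_inv, z2]⟩
  have i0 : Fin j := ⟨0, hj⟩
  set χ : V → ℝ := fun v => if Rc (v, a.2) then 1 else 0 with hχ
  have hN : (Fintype.card V : ℝ) ≠ 0 := by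
    have : Nonempty V := ⟨a.1⟩
    exact_mod_cast Fintype.card_ne_zero
  set m : ℝ := (∑ v, χ v) / Fintype.card V with hm
  have hj' : (j : ℝ) ≠ 0 := by exact_mod_cast (by omega : j ≠ 0)
  have hs : ∑ v, (χ v - m) = 0 := by
    rw [Finset.sum_sub_distrib, Finset.sum_const, Finset.card_univ, nsmul_eq_mul, hm]
    field_simp
    ring
  have hg := hgap (fun v => χ v - m) hs
  have hav : ∀ v, (∑ i, (χ ((τ i)⁻¹ v) - m)) / j = χ ((τ i0)⁻¹ v) - m := by
    intro v
    have : ∀ i, χ ((τ i)⁻¹ v) = χ ((τ i0)⁻¹ v) := fun i => by simp only [hχ, hstep]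
    simp only [this, Finset.sum_const, Finset.card_univ, Fintype.card_fin, nsmul_eq_mul]
    field_simp
  simp only [hav] at hg
  rw [Equiv.sum_comp ((τ i0)⁻¹ : Equiv.Perm V) (fun v => (χ v - m) ^ 2)] at hg
  have hpos : 0 ≤ ∑ v, (χ v - m) ^ 2 := Finset.sum_nonneg fun v _ => sq_nonneg _
  have hz : ∑ v, (χ v - m) ^ 2 = 0 := by
    have h2 : (1 - c) ^ 2 < 1 := by nlinarith
    by_contra hne
    have h3 : 0 < ∑ v, (χ v - m) ^ 2 := lt_of_le_of_ne hpos (Ne.symm hne)
    nlinarith
  have hall : ∀ v, χ v = m := fun v => by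
    have := (Finset.sum_eq_zero_iff_of_nonneg fun v _ => sq_nonneg (χ v - m)).1 hz v
      (Finset.mem_univ v)
    exact sub_eq_zero.1 (pow_eq_zero_iff two_ne_zero |>.1 this)
  have ha : χ a.1 = 1 := by
    have : Rc (a.1, a.2) := ⟨[], rfl⟩
    simp only [hχ, this, if_true]
  have hR : ∀ v, Rc (v, a.2) := fun v => by
    by_contra hn
    have h2 := hall v
    rw [← hall a.1, ha] at h2
    simp [hχ, hn] at h2
  obtain ⟨v, e⟩ := b
  have he : ∀ s e : ZMod 2, e = s ∨ e = s + 1 := by decide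
  rcases he a.2 e with rfl | rfl
  · exact hR v
  · exact (hstep i0 v a.2).1 (hR _)

theorem d_le (τ : Fin j → Equiv.Perm V) (a : V × ZMod 2) (u : List (Lt j)) :
    dC τ a (go (dbl τ) u a) ≤ u.length := Nat.sInf_le ⟨u, rfl, rfl⟩

theorem inj {τ : Fin j → Equiv.Perm V} {g : ℕ} (hg : Girth τ g) (a : V × ZMod 2)
    (u u' : List (Lt j)) (hu : IsReduced u) (hu' : IsReduced u') (hl : u.length + u'.length < g)
    (h : go (dbl τ) u a = go (dbl τ) u' a) : u = u' := by
  obtain ⟨x, e⟩ := a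
  rw [go_dbl, go_dbl] at h
  have h1 : go τ u x = go τ u' x := congrArg Prod.fst h
  have h2 : go τ (wd (mk (invRev u' ++ u))) x = x := by
    rw [go_congr τ (mk_wd _), go_append, h1, go_inv]
  have h3 : wd (mk (invRev u' ++ u)) = [] := by
    by_contra hne
    refine hg _ (red_wd _) hne ((len_wd _).trans_lt ?_) x h2
    rw [List.length_append, invRev_length]
    omega
  have h4 : mk (invRev u' ++ u) = 1 := by rw [← mk_wd (mk _), h3, one_eq_mk]
  rw [← mul_mk, ← inv_mk, inv_mul_eq_one] at h4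
  rw [← wd_mk hu, ← wd_mk hu', h4]

section Conn

variable {τ : Fin j → Equiv.Perm V} (hr : ∀ a b : V × ZMod 2, ∃ u, go (dbl τ) u a = b)
include hr

theorem conn (a b : V × ZMod 2) :
    ∃ u, IsReduced u ∧ u.length = dC τ a b ∧ go (dbl τ) u a = b := by
  obtain ⟨u0, h0⟩ := hr a b
  obtain ⟨u, h1, h2⟩ : dC τ a b ∈ {n | ∃ u : List (Lt j), u.length = n ∧ go (dbl τ) u a = b} :=
    Nat.sInf_mem ⟨_, u0, rfl, h0⟩
  have h3 : go (dbl τ) (wd (mk u)) a = b := by rw [go_congr _ (mk_wd _), h2]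
  refine ⟨wd (mk u), red_wd _, le_antisymm ((len_wd u).trans h1.le) ?_, h3⟩
  have := d_le τ a (wd (mk u))
  rwa [h3] at this

theorem d_symm_le (a b : V × ZMod 2) : dC τ b a ≤ dC τ a b := by
  obtain ⟨u, -, h1, rfl⟩ := conn hr a b
  have := d_le τ (go (dbl τ) u a) (invRev u)
  rwa [go_inv, invRev_length, h1] at this

theorem d_tri (a b e : V × ZMod 2) : dC τ a e ≤ dC τ a b + dC τ b e := by
  obtain ⟨u, -, h1, h2⟩ := conn hr a b
  obtain ⟨v, -, h3, h4⟩ := conn hr b e
  have := d_le τ a (v ++ u)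
  rw [go_append, h2, h4, List.length_append] at this
  omega

theorem d_mid (a b : V × ZMod 2) (k : ℕ) (hk : k ≤ dC τ a b) : ∃ e, dC τ a e = k := by
  obtain ⟨u, -, h1, h2⟩ := conn hr a b
  refine ⟨go (dbl τ) (u.drop (u.length - k)) a, le_antisymm ?_ ?_⟩
  · refine (d_le τ a _).trans ?_
    rw [List.length_drop]
    omega
  · have h3 := d_tri hr a (go (dbl τ) (u.drop (u.length - k)) a) b
    have h4 := d_le τ (go (dbl τ) (u.drop (u.length - k)) a) (u.take (u.length - k))
    rw [← go_append, List.take_append_drop, h2, List.length_take] at h4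
    omega

theorem d_lt [Fintype V] (a b : V × ZMod 2) : dC τ a b < 2 * Nat.card V := by
  have h : Finset.range (dC τ a b + 1) ⊆ Finset.univ.image (dC τ a) := fun k hk => by
    obtain ⟨e, he⟩ := d_mid hr a b k (Nat.lt_succ_iff.1 (Finset.mem_range.1 hk))
    exact Finset.mem_image.2 ⟨e, Finset.mem_univ _, he⟩
  have h2 := (Finset.card_le_card h).trans Finset.card_image_le
  rw [Finset.card_range, Finset.card_univ, Fintype.card_prod, ZMod.card] at h2
  rw [Nat.card_eq_fintype_card]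
  omega

theorem Ht_spec (a b : V × ZMod 2) :
    ∃ u, u.length = dC τ a b ∧ go (dbl τ) u a = b ∧ HtC τ a b = hts u := by
  have h1 : ((a.1, 0) : V × ZMod 2) = (a.1, a.2 + -a.2) := by rw [add_neg_cancel]
  have h2 : ((b.1, b.2 - a.2) : V × ZMod 2) = (b.1, b.2 + -a.2) := by rw [sub_eq_add_neg]
  obtain ⟨u0, -, h3, h4⟩ := conn hr (a.1, 0) (b.1, b.2 - a.2)
  have h5 := Classical.epsilon_spec (p := fun u : List (Lt j) =>
    u.length = dC τ (a.1, 0) (b.1, b.2 - a.2) ∧ go (dbl τ) u (a.1, 0) = (b.1, b.2 - a.2))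
    ⟨u0, h3, h4⟩
  refine ⟨_, h5.1.trans ?_, ?_, rfl⟩
  · rw [h1, h2, dC_shift]
  · exact (go_shift τ _ a b (-a.2)).1 (by rw [← h1, ← h2]; exact h5.2)

theorem word {g : ℕ} (hg : Girth τ g) (a : V × ZMod 2) (u : List (Lt j)) (hu : IsReduced u)
    (hl : 2 * u.length < g) :
    dC τ a (go (dbl τ) u a) = u.length ∧ HtC τ a (go (dbl τ) u a) = hts u := by
  obtain ⟨v, h1, h2, h3⟩ := Ht_spec hr a (go (dbl τ) u a)
  have h4 := d_le τ a u
  have h5 := len_wd v
  have h6 : wd (mk v) = u :=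
    inj hg a _ _ (red_wd _) hu (by omega) (by rw [go_congr _ (mk_wd _), h2])
  refine ⟨?_, by rw [h3, ← h6, hts_congr (mk_wd _)]⟩
  rw [h6] at h5
  omega

theorem add {g : ℕ} (hg : Girth τ g) (a b e : V × ZMod 2) (h : 2 * (dC τ a b + dC τ b e) < g) :
    HtC τ a b + HtC τ b e = HtC τ a e := by
  obtain ⟨u, h1, h2, h3⟩ := Ht_spec hr a b
  obtain ⟨v, h4, h5, h6⟩ := Ht_spec hr b e
  have h7 := len_wd (v ++ u)
  rw [List.length_append] at h7
  have h8 := (word hr hg a (wd (mk (v ++ u))) (red_wd _) (by omega)).2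
  rw [go_congr _ (mk_wd _), go_append, h2, h5, hts_congr (mk_wd _), hts_append] at h8
  rw [h3, h6, h8, add_comm]

theorem par (a b : V × ZMod 2) : (HtC τ a b : ZMod 2) = b.2 - a.2 := by
  obtain ⟨u, -, h2, h3⟩ := Ht_spec hr a b
  obtain ⟨x, s⟩ := a
  rw [go_dbl] at h2
  rw [h3, hts_par, ← h2]
  simp

theorem ball (a : V × ZMod 2) (n : ℕ) : {b | dC τ a b ≤ n}.ncard ≤ (2 * j + 1) ^ n := by
  have h : {b | dC τ a b ≤ n} ⊆
      ((ballF (Fin j) n).image fun f => FreeGroup.lift (dbl τ) f a : Finset _) := by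
    intro b hb
    obtain ⟨u, -, h1, h2⟩ := conn hr a b
    rw [Finset.mem_coe, Finset.mem_image]
    exact ⟨mk u, (mem_ball _ _ _).2 ((len_wd u).trans (h1.le.trans hb)), by rw [← go_lift, h2]⟩
  refine (Set.ncard_le_ncard h (Finset.finite_toSet _)).trans ?_
  rw [Set.ncard_coe_finset]
  have := card_ball (Fin j) n
  rw [Fintype.card_fin] at this
  exact Finset.card_image_le.trans this

end Conn

end Ht

theorem pBall : StBall := fun A _ n => ⟨Ht.mem_ball A n, Ht.card_ball A n⟩

theorem pHt : StHt := by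
  intro j g V _ τ c hj h0 h1 hg hgap
  have hr := Ht.reach hj h0 h1 hgap
  refine ⟨Ht.conn hr, Ht.d_le τ, fun a => Nat.le_zero.1 (Ht.d_le τ a []), fun a b h => ?_,
    fun a b => le_antisymm (Ht.d_symm_le hr b a) (Ht.d_symm_le hr a b), Ht.d_tri hr, Ht.d_lt hr,
    Ht.inj hg, Ht.word hr hg, Ht.add hr hg, Ht.par hr, fun a b => Ht.dC_shift τ a b 1,
    fun a b => ?_, Ht.ball hr, fun a n hn => ?_⟩
  · obtain ⟨u, -, h2, h3⟩ := Ht.conn hr a b
    rw [h, List.length_eq_zero_iff] at h2
    subst h2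
    exact h3
  · simp only [HtC, add_sub_add_right_eq_sub]
  · have hu : IsReduced (List.replicate n ((⟨0, hj⟩, true) : Lt j)) :=
      List.isChain_replicate_of_rel _ fun _ => rfl
    have := (Ht.word hr hg a _ hu (by simpa using hn)).1
    rw [List.length_replicate] at this
    exact ⟨_, this⟩

end Pool.Agent.P.MP_9167e9_an
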